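import Pool.Agent.Helper68.VN.GoalsA
import Pool.Agent.Helper90.SG2.ARRT

/-!
# Project HC, theorem PG (MP_a41896_nt), packet ARRB: the arrays exist
-/

set_option autoImplicit false

open MvPolynomial

namespace Pool.Agent.Helper14.VN.ARRB

open WeierstrassCurve Height
open Pool.Agent.Helper29.BL Pool.Agent.Helper92.Ru Pool.Agent.Helper42.SG
open Pool.Agent.Helper77.SGC (N0 Arr sh)
open Pool.Agent.Helper68.VN

noncomputable section

theorem plc_prod {K : Type} [Field K] [AdmissibleAbsValues K] {σ : Type}
    (B : σ → AbsoluteValue K ℝ → ℝ) (h : ∀ i, PlC (B i)) (s : Finset σ) :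
    PlC (K := K) fun v => ∏ i ∈ s, B i v := by
  classical
  induction s using Finset.induction_on with
  | empty =>
    have e : (fun v : AbsoluteValue K ℝ => ∏ i ∈ (∅ : Finset σ), B i v) = fun _ => 1 := by
      funext v
      exact Finset.prod_empty
    rw [e]
    refine ⟨fun _ => le_rfl, ?_⟩
    simp [FS]
  | insert a s ha ih =>
    have e : (fun v : AbsoluteValue K ℝ => ∏ i ∈ insert a s, B i v) =
        fun v => B a v * ∏ i ∈ s, B i v := by
      funext v
      exact Finset.prod_insert ha
    rw [e]
    exact Pool.Agent.Helper90.SG2.plc_mul (h a) ih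

/-- the coefficients -/
def Sa {K : Type} [Field K] {σ : Type} (G : σ → ℕ → Bool → ℕ → Fin 2 → ℕ → ℕ → K) (M : ℕ)
    (i : σ) (e : ℕ) (l : Bool) (μ : Fin 2) (s g a m : ℕ) : K :=
  if a < 4 ^ e ∧ m ≤ M then sh (G i e) l μ s g a m else 0

/-- **ARRB** -/
theorem t_ARRB : Pool.Agent.Helper68.VN.ARRB := by
  intro K _ _ σ _ W
  classical
  have h0 := fun i => Pool.Agent.Helper90.SG2.exists_arr K (W i)
  choose B D hB hD hA using h0
  refine ⟨fun v => ∏ i, B i v, ∏ i, D i, plc_prod B hB Finset.univ,
    Finset.prod_pos fun i _ => hD i, ?_⟩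
  intro M
  choose G hG using hA
  have hle : ∀ i v, B i v ≤ ∏ j, B j v := by
    intro i v
    rw [← Finset.mul_prod_erase Finset.univ (fun j => B j v) (Finset.mem_univ i)]
    exact le_mul_of_one_le_right (le_trans zero_le_one ((hB i).one_le v))
      ((plc_prod B hB (Finset.univ.erase i)).one_le v)
  refine ⟨Sa (fun i e => G i e M) M, ?_⟩
  constructor
  · intro i e l μ s g a m hS
    unfold Sa at hS
    split_ifs at hS with hc
    · unfold sh at hS
      split_ifs at hS with hij
      · have h1 := (hG i e M).deg l m hc.2 μ (s - a) g hS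
        refine ⟨?_, h1.2⟩
        have h2 := h1.1
        have h3 := hc.1
        unfold N0
        omega
      · exact absurd rfl hS
    · exact absurd rfl hS
  · intro i e l μ s g a m v
    have b1 : 1 ≤ B i v := (hB i).one_le v
    have p1 : (0 : ℝ) ≤ (∏ j, B j v) ^ (4 ^ e * (M + 1)) :=
      pow_nonneg ((le_trans zero_le_one b1).trans (hle i v)) _
    have p3 : B i v ^ (4 ^ e * (M + 1)) ≤ (∏ j, B j v) ^ (4 ^ e * (M + 1)) :=
      pow_le_pow_left₀ (by positivity) (hle i v) _
    unfold Sa
    split_ifs with hc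
    · unfold sh
      split_ifs with hij
      · refine ((hG i e M).bd l m hc.2 v μ (s - a) g).trans (le_trans ?_ p3)
        exact pow_le_pow_right₀ b1 (Nat.mul_le_mul_left _ (Nat.le_succ _))
      · rw [v.map_zero]
        exact p1
    · rw [v.map_zero]
      exact p1
  · intro i e l μ s g a m
    have hD0 : ∀ n k : ℕ, _root_.IsIntegral ℤ ((n : K) ^ k) := fun n k =>
      (isIntegral_natCast (R := ℤ) (B := K) n).pow k
    unfold Sa
    split_ifs with hc
    · unfold sh
      split_ifs with hij
      · have h1 := (hG i e M).int l m hc.2 μ (s - a) g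
        have e1 : (∏ j, D j) = D i * ∏ j ∈ Finset.univ.erase i, D j :=
          (Finset.mul_prod_erase Finset.univ D (Finset.mem_univ i)).symm
        rw [e1, Nat.cast_mul, mul_pow, Nat.mul_succ, pow_add (D i : K)]
        have e2 : (D i : K) ^ (4 ^ e * M) * (D i : K) ^ 4 ^ e *
            ((∏ j ∈ Finset.univ.erase i, D j : ℕ) : K) ^ (4 ^ e * M + 4 ^ e) *
              G i e M l m μ (s - a) g =
            ((D i : K) ^ 4 ^ e * ((∏ j ∈ Finset.univ.erase i, D j : ℕ) : K) ^
              (4 ^ e * M + 4 ^ e)) * ((D i : K) ^ (4 ^ e * M) * G i e M l m μ (s - a) g) := by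
          ring
        rw [e2]
        exact ((hD0 _ _).mul (hD0 _ _)).mul h1
      · rw [mul_zero]
        exact isIntegral_zero
    · rw [mul_zero]
      exact isIntegral_zero
  · intro i e l a m ha hm A _ _ x c η hη
    have h5 := Pool.Agent.Helper13.SGC.shift_law (W i) (B i) (D i) e M (G i e M) (hG i e M) l m a
      hm ha A x c η hη
    have h6 : ∀ μ s g, Sa (fun i e => G i e M) M i e l μ s g a m =
        sh (G i e M) l μ s g a m := by
      intro μ s g
      unfold Sa
      rw [if_pos ⟨ha, hm⟩]
    simp only [h6]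
    exact h5

end

end Pool.Agent.Helper14.VN.ARRB
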