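import Pool.Agent.Helper68.VN.GoalsT

/-!
# Project HC, theorem PG (MP_a41896_nt), packet NUMB: numbers
-/

set_option autoImplicit false

namespace Pool.Agent.Helper14.VN.NUMB

theorem t_NUMB : Pool.Agent.Helper68.VN.NUMB := by
  intro m n M δ k0 ε θ c0 C CA hn hδ hε hk hθ hMθ hc0 hC hCA
  set C1 : ℝ := n * M * m * c0 + 3 * n * m * c0 + n * m * c0 + 2 * C * n + 2 * n * m * c0 +
    C * CA with hC1
  have hC10 : 0 ≤ C1 := by positivity
  refine ⟨C1 + 4, ?_⟩
  intro σ _ q y g w y0 q0 T R A X0s X a hcard hq hq0 hT hy hg hg0 hw hX0 hX hXs ha hah hA hmain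
  have hnR : (1 : ℝ) ≤ n := by exact_mod_cast hn
  have hδR : (δ : ℝ) ≤ n := by exact_mod_cast hδ
  have hδ0 : (0 : ℝ) ≤ δ := Nat.cast_nonneg _
  have hM0 : (0 : ℝ) ≤ M := Nat.cast_nonneg _
  have hm0 : (0 : ℝ) ≤ m := Nat.cast_nonneg _
  have hmc : 0 ≤ (m : ℝ) * c0 := mul_nonneg hm0 hc0
  obtain ⟨j0, hj0⟩ := hq0
  have hq01 : 1 ≤ q0 := by rw [← hj0]; exact (hq j0).1
  have hT0 : 0 < T := by nlinarith
  have hqp : ∀ j, 0 < q j := fun j => lt_of_lt_of_le one_pos (hq j).1
  -- the numbers α j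
  set α : Fin n → ℝ := fun j => ∑ i, a (j, i) with hα
  have hα0 : ∀ j, 0 ≤ α j := fun j => Finset.sum_nonneg fun i _ => ha (j, i)
  have hαs : ∑ j, α j / q j < 1 := by
    rw [Fintype.sum_prod_type] at hah
    refine lt_of_le_of_lt (le_of_eq ?_) hah
    refine Finset.sum_congr rfl fun j _ => ?_
    rw [hα, Finset.sum_div]
  have hαq : ∀ j, α j ≤ q j := by
    intro j
    have h1 : α j / q j ≤ ∑ j, α j / q j :=
      Finset.single_le_sum (f := fun j => α j / q j)
        (fun j _ => div_nonneg (hα0 j) (hqp j).le) (Finset.mem_univ j)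
    have h2 : α j / q j ≤ 1 := by linarith
    rwa [div_le_one (hqp j)] at h2
  have hsq : ∑ j, q j ≤ n * q0 := by
    have h1 : ∑ j, q j ≤ ∑ _j : Fin n, q0 := Finset.sum_le_sum fun j _ => (hq j).2.1
    simpa using h1
  have hsα : ∑ j, α j ≤ n * q0 := (Finset.sum_le_sum fun j _ => hαq j).trans hsq
  have hsα0 : 0 ≤ ∑ j, α j := Finset.sum_nonneg fun j _ => hα0 j
  -- (1) and (2)
  have h12 : ∑ j, (M * w j + (q j + 2) * ∑ i, X (j, i)) ≤
      n * (T + M * (m * c0) + 3 * T + 3 * q0 * (m * c0)) := by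
    have h1 : ∀ j, M * w j + (q j + 2) * ∑ i, X (j, i) ≤
        T + M * (m * c0) + 3 * T + 3 * q0 * (m * c0) := by
      intro j
      have a1 : M * w j ≤ T + M * (m * c0) := by
        have b1 : M * w j ≤ M * (θ * T + m * c0) := mul_le_mul_of_nonneg_left (hw j) hM0
        have b2 : (M * θ) * T ≤ 1 * T := mul_le_mul_of_nonneg_right hMθ hT0.le
        nlinarith
      have a2 : (q j + 2) * ∑ i, X (j, i) ≤ (q j + 2) * (y j + m * c0) :=
        mul_le_mul_of_nonneg_left (hXs j) (by linarith [hqp j])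
      have a3 : 4 * y j ≤ q j * y j := by
        have := (hq j).2.2
        exact mul_le_mul_of_nonneg_right (by linarith) (hy j).1
      have a4 := (hy j).2
      have a5 : (q j + 2) * (m * c0) ≤ 3 * q0 * (m * c0) := by
        apply mul_le_mul_of_nonneg_right _ hmc
        linarith [(hq j).2.1]
      nlinarith
    have h2 : ∑ j, (M * w j + (q j + 2) * ∑ i, X (j, i)) ≤
        ∑ _j : Fin n, (T + M * (m * c0) + 3 * T + 3 * q0 * (m * c0)) :=
      Finset.sum_le_sum fun j _ => h1 j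
    refine h2.trans (le_of_eq ?_)
    simp
    ring
  -- (3)
  have h3 : δ * X0s ≤ n * (2 * T + m * c0) := by
    calc δ * X0s ≤ δ * (2 * T + m * c0) := mul_le_mul_of_nonneg_left hX0 hδ0
      _ ≤ n * (2 * T + m * c0) := mul_le_mul_of_nonneg_right hδR (by linarith)
  -- (4)
  have h4 : ∑ h : Fin n × σ, a h * (C + 2 * X h + g h.1) ≤
      C * (n * q0) + 4 * T + 2 * (n * q0) * (m * c0) + ∑ j, q j * g j := by
    rw [Fintype.sum_prod_type]
    have b1 : ∀ j, ∑ i, a (j, i) * (C + 2 * X (j, i) + g j) ≤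
        C * α j + 2 * (α j / q j * (2 * T)) + 2 * α j * (m * c0) + q j * g j := by
      intro j
      have c1 : ∑ i, a (j, i) * (C + 2 * X (j, i) + g j) ≤
          ∑ i, a (j, i) * (C + 2 * (y j + m * c0) + g j) := by
        refine Finset.sum_le_sum fun i _ => ?_
        apply mul_le_mul_of_nonneg_left _ (ha (j, i))
        have d1 : X (j, i) ≤ ∑ i, X (j, i) :=
          Finset.single_le_sum (f := fun i => X (j, i)) (fun i _ => hX (j, i))
            (Finset.mem_univ i)
        have d2 := hXs j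
        linarith
      rw [← Finset.sum_mul] at c1
      refine c1.trans ?_
      have c2 : ∑ i, a (j, i) = α j := rfl
      rw [c2]
      have c3 : α j * y j ≤ α j / q j * (2 * T) := by
        have e1 : α j * y j = α j / q j * (q j * y j) := by
          have := (hqp j).ne'
          field_simp
        rw [e1]
        exact mul_le_mul_of_nonneg_left (hy j).2 (div_nonneg (hα0 j) (hqp j).le)
      have c4 : α j * g j ≤ q j * g j := mul_le_mul_of_nonneg_right (hαq j) (hg0 j)
      nlinarith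
    have b2 : ∑ j, ∑ i, a (j, i) * (C + 2 * X (j, i) + g j) ≤
        ∑ j, (C * α j + 2 * (α j / q j * (2 * T)) + 2 * α j * (m * c0) + q j * g j) :=
      Finset.sum_le_sum fun j _ => b1 j
    refine b2.trans ?_
    rw [Finset.sum_add_distrib, Finset.sum_add_distrib, Finset.sum_add_distrib, ← Finset.mul_sum,
      ← Finset.mul_sum, ← Finset.sum_mul, ← Finset.sum_mul, ← Finset.mul_sum]
    have b3 : C * ∑ j, α j ≤ C * (n * q0) := mul_le_mul_of_nonneg_left hsα hC
    have b4 : (∑ j, α j / q j) * (2 * T) ≤ 1 * (2 * T) :=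
      mul_le_mul_of_nonneg_right hαs.le (by linarith)
    have b5 : 2 * (∑ j, α j) * (m * c0) ≤ 2 * (n * q0) * (m * c0) := by
      apply mul_le_mul_of_nonneg_right _ hmc
      linarith
    linarith
  -- (5)
  have h5 : C * (∑ j, q j + A) ≤ C * (n * q0 + CA * q0) :=
    mul_le_mul_of_nonneg_left (by linarith) hC
  -- the left hand side
  have h6 : ∑ j, (k0 : ℝ) * q j * g j = k0 * ∑ j, q j * g j := by
    rw [Finset.mul_sum]
    exact Finset.sum_congr rfl fun j _ => by ring
  rw [h6] at hmain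
  have hk1 : 0 < (k0 : ℝ) - 1 := by
    by_contra hcon
    have : ((k0 : ℝ) - 1) * ε ≤ 0 := mul_nonpos_of_nonpos_of_nonneg (not_lt.1 hcon) hε.le
    linarith
  have h7 : n * (ε * T) ≤ ∑ j, q j * g j := by
    have c1 : ∑ _j : Fin n, ε * T ≤ ∑ j, q j * g j := Finset.sum_le_sum fun j _ => hg j
    simpa using c1
  have h8 : ((k0 : ℝ) - 1) * (n * (ε * T)) ≤ ((k0 : ℝ) - 1) * ∑ j, q j * g j :=
    mul_le_mul_of_nonneg_left h7 hk1.le
  have h9 : 12 * (n * T) ≤ ((k0 : ℝ) - 1) * (n * (ε * T)) := by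
    have : 12 * (n * T) ≤ (((k0 : ℝ) - 1) * ε) * (n * T) :=
      mul_le_mul_of_nonneg_right hk (by positivity)
    linarith
  -- C1 q0 ≤ T
  have h10 : C1 * q0 ≤ T - 4 * q0 := by
    linarith
  have h11 : n * (M * (m * c0)) ≤ n * M * m * c0 * q0 := by
    have : n * M * m * c0 * 1 ≤ n * M * m * c0 * q0 :=
      mul_le_mul_of_nonneg_left hq01 (by positivity)
    linarith
  have h12' : n * (m * c0) ≤ n * m * c0 * q0 := by
    have : n * m * c0 * 1 ≤ n * m * c0 * q0 :=
      mul_le_mul_of_nonneg_left hq01 (by positivity)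
    linarith
  have h13 : C1 * q0 = n * M * m * c0 * q0 + 3 * n * m * c0 * q0 + n * m * c0 * q0 +
      2 * C * n * q0 + 2 * n * m * c0 * q0 + C * CA * q0 := by
    rw [hC1]
    ring
  have h14 : T ≤ n * T := by nlinarith
  linarith

end Pool.Agent.Helper14.VN.NUMB
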